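import Mathlib
import Pool.Agent.H1.EllDens

set_option autoImplicit false

namespace Pool.Agent.Results.MP_050d88_nt.NoCountableFamily

open Pool.Agent.H1.Ell

/-- No countable family of infinite sets of scales suffices for all non-pretentious functions:
given infinite sets `X 0, X 1, ...` there is one unimodular non-pretentious multiplicative `f`
for which the two-point correlations fail to vanish along every `X i`. -/
theorem result (X : ℕ → Set ℕ) (hX : ∀ i, (X i).Infinite) :
    ∃ f : ℕ → ℂ, IsMult f ∧ (∀ n, ‖f n‖ = 1) ∧ NonPretentious f ∧ ∀ i, ¬ CorrVanish 1 f (X i) :=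
  no_countable_family X hX

end Pool.Agent.Results.MP_050d88_nt.NoCountableFamily
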