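import Mathlib
import Pool.Agent.H47.NM.UNI
import Pool.Agent.H32.RB.Main

/-!
# Almost every rational map is hyperbolic or has a recurrent critical point in its Julia set
-/

set_option autoImplicit false

namespace Pool.Agent.Results.MP_8f2e1c_an.RecurrentCritical

open Polynomial Filter Topology MeasureTheory

/-- `f` is the rational map `P/Q` on the sphere. -/
def IsMap (f : OnePoint ℂ → OnePoint ℂ) (P Q : Polynomial ℂ) : Prop :=
  Continuous f ∧
    ∀ z : ℂ, Q.eval z ≠ 0 → f (OnePoint.some z) = OnePoint.some (P.eval z / Q.eval z)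

/-- `c` is a critical point of `f`. -/
def IsCritical (f : OnePoint ℂ → OnePoint ℂ) (c : OnePoint ℂ) : Prop :=
  ¬ ∃ U ∈ nhds c, Set.InjOn f U

/-- `c` is attracted by an attracting cycle of `f` (words of the frozen statement `S05373`). -/
def IsAttracted (f : OnePoint ℂ → OnePoint ℂ) (c : OnePoint ℂ) : Prop :=
  ∃ z : OnePoint ℂ, ∃ n : ℕ, 0 < n ∧ f^[n] z = z ∧
    (∃ U ∈ nhds z, ∀ w ∈ U,
      Filter.Tendsto (fun k : ℕ => f^[n * k] w) Filter.atTop (nhds z)) ∧
    Filter.Tendsto (fun k : ℕ => f^[n * k] c) Filter.atTop (nhds z)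

/-- The chordal distance of the Riemann sphere. -/
noncomputable def chordal : OnePoint ℂ → OnePoint ℂ → ℝ
  | OnePoint.some z, OnePoint.some w => ‖z - w‖ / (√(1 + ‖z‖ ^ 2) * √(1 + ‖w‖ ^ 2))
  | OnePoint.some z, OnePoint.infty => 1 / √(1 + ‖z‖ ^ 2)
  | OnePoint.infty, OnePoint.some w => 1 / √(1 + ‖w‖ ^ 2)
  | OnePoint.infty, OnePoint.infty => 0

/-- The Julia set of `f`: the points without a neighbourhood at whose points the iterates of `f` are
equicontinuous for the chordal distance. -/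
def julia (f : OnePoint ℂ → OnePoint ℂ) : Set (OnePoint ℂ) :=
  (interior {x | ∀ ε : ℝ, 0 < ε → ∀ᶠ y in nhds x, ∀ n : ℕ, chordal (f^[n] x) (f^[n] y) < ε})ᶜ

/-- The limit set of the orbit of `x`. -/
def limitSet (f : OnePoint ℂ → OnePoint ℂ) (x : OnePoint ℂ) : Set (OnePoint ℂ) :=
  {y | MapClusterPt y atTop fun n : ℕ => f^[n] x}

/-- The polynomial of degree at most `d` with coefficients `v`. -/
noncomputable def poly {d : ℕ} (v : Fin (d + 1) → ℂ) : Polynomial ℂ := ∑ i, C (v i) * X ^ (i : ℕ)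

/-- The rational maps `P/Q` of degree exactly `d` with `deg Q ≤ d - m`, given by the coefficients of a
pair of coprime polynomials, which have a property of maps of the sphere. For `m = 0` these are all
rational maps of degree `d`, for `m ≥ 1` those which fix infinity with local degree at least `m`, for
`m = d` the polynomials (up to the constant `Q`). -/
def MapsWith (d m : ℕ) (T : (OnePoint ℂ → OnePoint ℂ) → Prop) :
    Set ((Fin (d + 1) → ℂ) × (Fin (d - m + 1) → ℂ)) :=
  {v | IsCoprime (poly v.1) (poly v.2) ∧ max (poly v.1).natDegree (poly v.2).natDegree = d ∧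
    ∃ f : OnePoint ℂ → OnePoint ℂ, IsMap f (poly v.1) (poly v.2) ∧ T f}

theorem chord_eq (x y : OnePoint ℂ) : chordal x y = Pool.Agent.H35.EX.chord x y := by
  induction x using OnePoint.rec with
  | infty =>
    induction y using OnePoint.rec with
    | infty => rfl
    | coe y => rfl
  | coe x =>
    induction y using OnePoint.rec with
    | infty => rfl
    | coe y => rfl

theorem julia_eq (f : OnePoint ℂ → OnePoint ℂ) : julia f = Pool.Agent.H44.RC.JS f := by
  unfold julia Pool.Agent.H44.RC.JS Pool.Agent.H56.HR.FS Pool.Agent.H56.HR.EqAt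
  simp only [chord_eq]

theorem limit_eq (f : OnePoint ℂ → OnePoint ℂ) (x : OnePoint ℂ) :
    limitSet f x = Pool.Agent.H44.RC.Om f x := by
  ext y
  exact mapClusterPt_iff_frequently

theorem att_of {f : OnePoint ℂ → OnePoint ℂ} {c : OnePoint ℂ}
    (h : Pool.Agent.H32.BT.Att f c) : IsAttracted f c := by
  obtain ⟨z, n, ⟨h1, h2, h3⟩, h4⟩ := h
  exact ⟨z, n, h1, h2, h3, h4⟩

/-- the property of almost every map -/
def Prp (f : OnePoint ℂ → OnePoint ℂ) : Prop :=
  (∀ c : OnePoint ℂ, IsCritical f c → c ∈ julia f →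
    ∃ r : OnePoint ℂ, IsCritical f r ∧ r ∈ julia f ∧ r ∈ limitSet f r ∧
      (limitSet f c ∩ limitSet f r).Nonempty) ∧
  ((∀ c : OnePoint ℂ, IsCritical f c → IsAttracted f c) ∨
    ∃ r : OnePoint ℂ, IsCritical f r ∧ r ∈ julia f ∧ r ∈ limitSet f r)

theorem prp_of {f : OnePoint ℂ → OnePoint ℂ} (h : Pool.Agent.H47.NM.Concl f) : Prp f := by
  refine ⟨fun c hc hJ => ?_, ?_⟩
  · rw [julia_eq] at hJ
    obtain ⟨r, h1, h2, h3, h4⟩ := h.1 c hc hJ
    refine ⟨r, h1, ?_, ?_, ?_⟩
    · rw [julia_eq]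
      exact h2
    · rw [limit_eq]
      exact h3
    · rw [limit_eq, limit_eq]
      exact h4
  · rcases h.2 with h1 | ⟨r, h1, h2, h3⟩
    · exact Or.inl fun c hc => att_of (h1 c hc)
    · refine Or.inr ⟨r, h1, ?_, ?_⟩
      · rw [julia_eq]
        exact h2
      · rw [limit_eq]
        exact h3

theorem zero_case {d : ℕ} (hd : 2 ≤ d) {T : (OnePoint ℂ → OnePoint ℂ) → Prop}
    (hT : ∀ f, T f → ¬ Pool.Agent.H47.NM.Concl f) : volume (MapsWith d 0 T) = 0 := by
  refine measure_mono_null ?_ (Pool.Agent.H47.NM.rc_zero hd)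
  rintro v ⟨h1, h2, f, hf, hTf⟩
  have h1' : IsCoprime (Pool.Agent.H79.Eul.pol v.1) (Pool.Agent.H79.Eul.pol v.2) := h1
  have h2' : max (Pool.Agent.H79.Eul.pol v.1).natDegree
      (Pool.Agent.H79.Eul.pol v.2).natDegree = d := h2
  have hB0 : Pool.Agent.H79.Eul.pol v.2 ≠ 0 := Pool.Agent.H32.BT.den_ne_zero h1' (by omega)
  have hfr : f = Pool.Agent.H79.Par.Rf v := Pool.Agent.H32.RB.ext_eq h1' hB0 hf
  refine ⟨h1', h2', ?_⟩
  rw [← hfr]
  exact hT f hTf

theorem fam_case {d m : ℕ} (hm : 2 ≤ m) (hmd : m ≤ d) {T : (OnePoint ℂ → OnePoint ℂ) → Prop}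
    (hT : ∀ f, T f → ¬ Pool.Agent.H47.NM.Concl f) : volume (MapsWith d m T) = 0 := by
  refine measure_mono_null ?_ (Pool.Agent.H47.NM.rc_fam hm hmd)
  rintro v ⟨h1, h2, f, hf, hTf⟩
  have h1' : IsCoprime (Pool.Agent.H79.Eul.pol v.1) (Pool.Agent.H79.Eul.pol v.2) := h1
  have h2' : max (Pool.Agent.H79.Eul.pol v.1).natDegree
      (Pool.Agent.H79.Eul.pol v.2).natDegree = d := h2
  have hB0 : Pool.Agent.H79.Eul.pol v.2 ≠ 0 := Pool.Agent.H32.BT.den_ne_zero h1' (by omega)
  have e1 := (Pool.Agent.H47.NM.ex_pol v).1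
  have e2 := (Pool.Agent.H47.NM.ex_pol v).2
  have hfr : f = Pool.Agent.H79.Par.Rf (Pool.Agent.H47.NM.ex d m v) := by
    refine Pool.Agent.H32.RB.ext_eq (by rw [e1, e2]; exact h1') (by rw [e2]; exact hB0) ?_
    rw [e1, e2]
    exact hf
  refine ⟨h1', h2', ?_⟩
  rw [← hfr]
  exact hT f hTf

/-- Almost every rational map of degree `d`, and of every family `MapsWith d m` with `m ≥ 2`, for
`m = d` almost every polynomial of degree `d`, is hyperbolic or has a recurrent critical point in its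
Julia set, and the limit set of every critical point in the Julia set meets the limit set of such a
recurrent critical point. -/
theorem result (d m : ℕ) (hd : 2 ≤ d) (hm : m ≤ d) (hm1 : m ≠ 1) :
    volume (MapsWith d m fun f =>
      ¬ ((∀ c : OnePoint ℂ, IsCritical f c → c ∈ julia f →
          ∃ r : OnePoint ℂ, IsCritical f r ∧ r ∈ julia f ∧ r ∈ limitSet f r ∧
            (limitSet f c ∩ limitSet f r).Nonempty) ∧
        ((∀ c : OnePoint ℂ, IsCritical f c → IsAttracted f c) ∨
          ∃ r : OnePoint ℂ, IsCritical f r ∧ r ∈ julia f ∧ r ∈ limitSet f r))) = 0 := by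
  rcases Nat.eq_zero_or_pos m with h0 | h0
  · subst h0
    exact zero_case hd fun f h h' => h (prp_of h')
  · exact fam_case (by omega : 2 ≤ m) hm fun f h h' => h (prp_of h')

end Pool.Agent.Results.MP_8f2e1c_an.RecurrentCritical
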